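import Pool.Agent.H7.HD.Targets9
import Pool.Agent.H75.HD.RA

/-!
# MP_e37c09_lc: module RW (reflection of `GoodN` and `GoodW` below an extendible cardinal)
-/

open Ordinal Cardinal Order Set
open scoped ZFSet

universe u

namespace Pool.Agent.H81.HD9.RW

open _root_.HD Pool.Agent.H75.HD.RA

theorem goodWB_of_goodW {D : Cardinal.{u}} (h : GoodN D) (hw : GoodW D) (β : Ordinal.{u}) :
    GoodWB β D.ord :=
  ⟨D, rfl, h.1, h.2.1, h.2.2.1, fun κ _ hκ => hw κ hκ⟩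

theorem X (hLW : T_LW.{u}) : T_RW.{u} := by
  have hRB : T_RB.{u} := All.rb
  have hXA : T_XA.{u} := All.xa
  intro D hext hgood hgw l hl
  obtain ⟨η, hη, θ, j, hj⟩ := hXA D.ord hext D.ord
  have hδθ : D.ord < θ := (hη.trans hj.Jo_crit).trans (hj.Jo_lt hj.dlt)
  have hR : Loc.{u} fun v => v 2 ∈ v 0 ∧ v 0 ∈ v 1 ∧
      (((v 1).IsOrdinal ∧ (v 0).IsOrdinal ∧ GoodB (v 1).rank (v 0).rank) ∧
      ((v 1).IsOrdinal ∧ (v 0).IsOrdinal ∧ GoodWB (v 1).rank (v 0).rank)) := by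
    refine (Loc.mem 2 0).and ((Loc.mem 0 1).and (Loc.and ?_ ?_))
    · refine (hRB.ren (fun n => if n = 0 then 1 else 0)).congr fun v => ?_
      simp
    · refine (hLW.ren (fun n => if n = 0 then 1 else 0)).congr fun v => ?_
      simp
  have key := hj.trl_ex (R := fun x w => w 1 ∈ x ∧ x ∈ w 0 ∧
    (((w 0).IsOrdinal ∧ x.IsOrdinal ∧ GoodB (w 0).rank x.rank) ∧
    ((w 0).IsOrdinal ∧ x.IsOrdinal ∧ GoodWB (w 0).rank x.rank))) hR
    [D.ord.toZFSet, l.toZFSet] (by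
    intro x hx
    simp only [List.mem_cons, List.not_mem_nil, or_false] at hx
    rcases hx with rfl | rfl
    · exact Gd.ord.2 hj.dlt
    · exact Gd.ord.2 (hl.trans hj.dlt))
  have h1 := key.2 ⟨D.ord.toZFSet, Gd.ord.2 hδθ, by
    simp only [List.map_cons, List.map_nil, sv_cons_zero, sv_cons_succ]
    refine ⟨?_, ?_, ⟨?_, ZFSet.isOrdinal_toZFSet _, ?_⟩, ⟨?_, ZFSet.isOrdinal_toZFSet _, ?_⟩⟩
    · rw [hj.fix l hl]
      exact toZFSet_mem_toZFSet_iff.2 hl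
    · rw [hj.ord hj.dlt]
      exact toZFSet_mem_toZFSet_iff.2 (hη.trans hj.Jo_crit)
    · rw [hj.ord hj.dlt]
      exact ZFSet.isOrdinal_toZFSet _
    · rw [rank_toZFSet]
      exact goodB_of_goodN hgood _
    · rw [hj.ord hj.dlt]
      exact ZFSet.isOrdinal_toZFSet _
    · rw [rank_toZFSet]
      exact goodWB_of_goodW hgood hgw _⟩
  obtain ⟨x, -, hx1, hx2, ⟨-, hx3, hx4⟩, -, -, hx5⟩ := h1
  have hl' : sv [D.ord.toZFSet, l.toZFSet] 1 = l.toZFSet := rfl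
  have hd' : sv [D.ord.toZFSet, l.toZFSet] 0 = D.ord.toZFSet := rfl
  rw [hl'] at hx1
  rw [hd'] at hx2 hx4 hx5
  obtain ⟨d, rfl⟩ := ord_of hx3
  rw [toZFSet_mem_toZFSet_iff] at hx1 hx2
  rw [rank_toZFSet, rank_toZFSet] at hx4 hx5
  obtain ⟨D', rfl, hreg, hsl, hal⟩ := hx4.1
  refine ⟨D', Cardinal.ord_lt_ord.1 hx2, hx1, ⟨hreg, hsl, hal, ?_⟩, ?_⟩
  · intro M hM hMD κ hκ s hs hfun hpos
    have hf : OD (rs κ D'.ord s) := od_rs hs _ _
    obtain ⟨N, hok, hden⟩ := od_iff_nm.1 hf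
    obtain ⟨η', hη', θ', j', hj'⟩ := hXA D.ord hext (max N.a κ)
    have htr := hj'.trl hRB [D.ord.toZFSet, D'.ord.toZFSet] (by
      intro x hx
      simp only [List.mem_cons, List.not_mem_nil, or_false] at hx
      rcases hx with rfl | rfl
      · exact Gd.ord.2 hj'.dlt
      · exact Gd.ord.2 (hx2.trans hj'.dlt))
    have h2 := htr.1 ⟨ZFSet.isOrdinal_toZFSet _, ZFSet.isOrdinal_toZFSet _, by
      simp only [sv_cons_zero, sv_cons_succ]
      rw [rank_toZFSet, rank_toZFSet]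
      exact hx4⟩
    obtain ⟨-, -, h3⟩ := h2
    have e0 : (sv (List.map j' [D.ord.toZFSet, D'.ord.toZFSet]) 0) = (Jo j' D.ord).toZFSet :=
      hj'.ord hj'.dlt
    have e1 : (sv (List.map j' [D.ord.toZFSet, D'.ord.toZFSet]) 1) = D'.ord.toZFSet :=
      hj'.fix _ hx2
    rw [e0, e1, rank_toZFSet, rank_toZFSet] at h3
    refine h3.2 M.ord (Cardinal.ord_lt_ord.2 hMD) (Cardinal.omega0_le_ord.2 hM.aleph0_le) ?_ κ
      (((le_max_right _ _).trans_lt hη').trans hj'.Jo_crit) (Cardinal.ord_le_ord.2 hκ)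
      (rs κ D'.ord s) ⟨N, ((le_max_left _ _).trans_lt hη').trans hj'.Jo_crit, hok, hden⟩ ?_ ?_
    · show M.ord.cof.ord = M.ord
      rw [hM.cof_ord]
    · intro b i i' h h'
      obtain ⟨a, _, c, _, hR, he⟩ := mem_rs.1 h
      obtain ⟨a', _, c', _, hR', he'⟩ := mem_rs.1 h'
      obtain ⟨rfl, rfl⟩ := ZFSet.pair_injective he
      obtain ⟨h5, rfl⟩ := ZFSet.pair_injective he'
      have := toZFSet_injective h5
      subst this
      rw [hfun _ _ _ hR hR']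
    · intro i hi
      refine (hpos i hi).mono fun b hb hb' _ => ?_
      exact pair_mem_rs.2 ⟨hb, hi, hb'⟩
  · intro κ hκ
    obtain ⟨η', hη', θ', j', hj'⟩ := hXA D.ord hext κ
    have htr := hj'.trl hLW [D.ord.toZFSet, D'.ord.toZFSet] (by
      intro x hx
      simp only [List.mem_cons, List.not_mem_nil, or_false] at hx
      rcases hx with rfl | rfl
      · exact Gd.ord.2 hj'.dlt
      · exact Gd.ord.2 (hx2.trans hj'.dlt))
    have h2 := htr.1 ⟨ZFSet.isOrdinal_toZFSet _, ZFSet.isOrdinal_toZFSet _, by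
      simp only [sv_cons_zero, sv_cons_succ]
      rw [rank_toZFSet, rank_toZFSet]
      exact hx5⟩
    obtain ⟨-, -, h3⟩ := h2
    have e0 : (sv (List.map j' [D.ord.toZFSet, D'.ord.toZFSet]) 0) = (Jo j' D.ord).toZFSet :=
      hj'.ord hj'.dlt
    have e1 : (sv (List.map j' [D.ord.toZFSet, D'.ord.toZFSet]) 1) = D'.ord.toZFSet :=
      hj'.fix _ hx2
    rw [e0, e1, rank_toZFSet, rank_toZFSet] at h3
    obtain ⟨D'', hD'', -, -, -, h4⟩ := h3
    obtain rfl : D' = D'' := Cardinal.ord_injective hD''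
    exact h4 κ (hη'.trans hj'.Jo_crit) hκ

end Pool.Agent.H81.HD9.RW
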