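import Pool.Agent.H7.HD.Targets9

/-!
# MP_e37c09_lc: module LW (`GoodWB` is locally definable)
-/

open Ordinal Cardinal Order Set
open scoped ZFSet

universe u

namespace Pool.Agent.H81.HD9.LW

open _root_.HD

/-- set-level version of `WN` -/
def WZ (d k w : ZFSet.{u}) : Prop :=
  (∀ x ∈ w, x ⊆ k) ∧ k ∈ w ∧ (∀ x ∈ w, ∀ y ⊆ k, x ⊆ y → y ∈ w) ∧
  (∀ x ⊆ k, (x ∈ w ∧ ∀ y ∈ w, ∃ z ∈ y, z ∈ x) ∨ (¬ x ∈ w ∧ ∃ y ∈ w, ∀ z ∈ y, ¬ z ∈ x)) ∧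
  (∀ ξ ∈ k, ∃ x ∈ w, ∀ ν ∈ x, ξ ∈ ν) ∧
  (∃ x ∈ w, ∀ ν ∈ x, (∃ _a ∈ ν, True) ∧ ∀ a ∈ ν, ∃ b ∈ ν, a ∈ b) ∧
  (∃ x ∈ w, ∀ ν ∈ x, ∃ μ ∈ d, μ.IsOrdinal ∧ ν.IsOrdinal ∧ Cf μ.rank ν.rank) ∧
  (∀ τ ∈ d, ∃ P, P = ZFSet.prod τ k ∧ ∀ F ⊆ P,
    (∀ i ∈ τ, ∃ x ∈ w, ∀ ν ∈ x, ZFSet.pair i ν ∈ F) →
    ∃ x ∈ w, ∀ ν ∈ x, ∀ i ∈ τ, ZFSet.pair i ν ∈ F) ∧
  ∃ P, P = ZFSet.prod k k ∧ ∀ G ⊆ P, (∃ x ∈ w, ∀ ν ∈ x, ∃ ξ ∈ ν, ZFSet.pair ν ξ ∈ G) →
    ∃ η ∈ k, ∃ y ∈ w, ∀ ν ∈ y, ∃ ξ ∈ k, (ξ ∈ η ∨ ξ = η) ∧ ZFSet.pair ν ξ ∈ G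

theorem loc_WZ (i j k : ℕ) : Loc.{u} fun v => WZ (v i) (v j) (v k) := by
  have hLA : T_LA.{u} := All.la
  refine Loc.and (Loc.allMem k (Loc.sub 0 (j + 1))) (Loc.and (Loc.mem j k) (Loc.and
    (Loc.allMem k (Loc.allSub (j + 1) ((Loc.sub 1 0).imp (Loc.mem 0 (k + 2))))) (Loc.and
    (Loc.allSub j (((Loc.mem 0 (k + 1)).and (Loc.allMem (k + 1) (Loc.exMem 0 (Loc.mem 0 2)))).or
      ((Loc.mem 0 (k + 1)).not.and (Loc.exMem (k + 1) (Loc.allMem 0 (Loc.mem 0 2).not)))))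
    (Loc.and (Loc.allMem j (Loc.exMem (k + 1) (Loc.allMem 0 (Loc.mem 2 0)))) (Loc.and
    (Loc.exMem k (Loc.allMem 0 ((Loc.exMem 0 Loc.true).and
      (Loc.allMem 0 (Loc.exMem 1 (Loc.mem 1 0))))))
    (Loc.and (Loc.exMem k (Loc.allMem 0 (Loc.exMem (i + 2) (hLA.ren fun n => n))))
    (Loc.and (Loc.allMem i (Loc.ex (Loc.and (loc_prod 0 1 (j + 2)) (Loc.allSub 0 (Loc.imp
      (Loc.allMem 2 (Loc.exMem (k + 4) (Loc.allMem 0 (loc_pmem 2 0 3))))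
      (Loc.exMem (k + 3) (Loc.allMem 0 (Loc.allMem 4 (loc_pmem 0 1 3))))))) ?_))
    (Loc.ex (Loc.and (loc_prod 0 (j + 1) (j + 1)) (Loc.allSub 0 (Loc.imp
      (Loc.exMem (k + 2) (Loc.allMem 0 (Loc.exMem 0 (loc_pmem 1 0 3))))
      (Loc.exMem (j + 2) (Loc.exMem (k + 3) (Loc.allMem 0 (Loc.exMem (j + 5)
        (((Loc.mem 0 3).or (Loc.eq 0 3)).and (loc_pmem 1 0 4)))))))))
      ?_))))))))
  · rintro η hη v hv x ⟨rfl, -⟩
    exact hη.prod (hv _) (hv _)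
  · rintro η hη v hv x ⟨rfl, -⟩
    exact hη.prod (hv _) (hv _)

theorem os_sub {κ : Ordinal.{u}} {A : Set Ordinal.{u}} : os κ A ⊆ κ.toZFSet := by
  intro z hz
  obtain ⟨a, ha, -, rfl⟩ := mem_os.1 hz
  exact toZFSet_mem_toZFSet_iff.2 ha

/-- the set of the ordinals in `x` -/
def So (x : ZFSet.{u}) : Set Ordinal.{u} := {ν | ν.toZFSet ∈ x}

theorem wz_of_wn {D : Cardinal.{u}} {κ : Ordinal.{u}} {W : Ultrafilter Ordinal.{u}}
    (h : WN D κ W) : ∃ w, WZ D.ord.toZFSet κ.toZFSet w := by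
  classical
  set w : ZFSet.{u} := ZFSet.sep (fun x => So x ∈ W) (ZFSet.powerset κ.toZFSet) with hw
  have mw : ∀ x, x ∈ w ↔ x ⊆ κ.toZFSet ∧ So x ∈ W := by
    intro x
    rw [hw, ZFSet.mem_sep, ZFSet.mem_powerset]
  have hos : ∀ A : Set Ordinal.{u}, A ∈ W → os κ A ∈ w := by
    intro A hA
    rw [mw]
    refine ⟨os_sub, ?_⟩
    filter_upwards [h.lt, hA] with ν h1 h2
    exact ord_mem_os.2 ⟨h1, h2⟩
  refine ⟨w, fun x hx => ((mw x).1 hx).1, (mw _).2 ⟨fun _ h => h, ?_⟩, ?_, ?_, ?_, ?_, ?_, ?_, ?_⟩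
  · filter_upwards [h.lt] with ν h1
    exact toZFSet_mem_toZFSet_iff.2 h1
  · intro x hx y hy hxy
    refine (mw y).2 ⟨hy, ?_⟩
    filter_upwards [((mw x).1 hx).2] with ν h1
    exact hxy (show ν.toZFSet ∈ x from h1)
  · intro x hx
    by_cases hxW : So x ∈ W
    · left
      refine ⟨(mw x).2 ⟨hx, hxW⟩, fun y hy => ?_⟩
      have h1 : So y ∩ So x ∈ W := Filter.inter_mem ((mw y).1 hy).2 hxW
      obtain ⟨ν, h2, h3⟩ := W.nonempty_of_mem h1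
      exact ⟨ν.toZFSet, h2, h3⟩
    · right
      refine ⟨fun h => hxW ((mw x).1 h).2, os κ (So x)ᶜ, hos _ ?_, ?_⟩
      · exact Ultrafilter.compl_mem_iff_notMem.2 hxW
      · intro z hz
        obtain ⟨a, -, ha, rfl⟩ := mem_os.1 hz
        exact ha
  · intro ξ hξ
    obtain ⟨ξ, hξ', rfl⟩ := mem_toZFSet_iff.1 hξ
    refine ⟨_, hos _ (h.gt ξ hξ'), fun ν hν => ?_⟩
    obtain ⟨a, -, ha, rfl⟩ := mem_os.1 hν
    exact toZFSet_mem_toZFSet_iff.2 ha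
  · refine ⟨_, hos _ h.lim, fun ν hν => ?_⟩
    obtain ⟨a, -, ha, rfl⟩ := mem_os.1 hν
    refine ⟨⟨(0 : Ordinal.{u}).toZFSet, toZFSet_mem_toZFSet_iff.2 ?_, trivial⟩, ?_⟩
    · exact ha.bot_lt
    · intro b hb
      obtain ⟨b, hb', rfl⟩ := mem_toZFSet_iff.1 hb
      exact ⟨(succ b).toZFSet, toZFSet_mem_toZFSet_iff.2 (ha.succ_lt hb'),
        toZFSet_mem_toZFSet_iff.2 (lt_succ b)⟩
  · refine ⟨_, hos _ h.cf, fun ν hν => ?_⟩
    obtain ⟨a, -, ha, rfl⟩ := mem_os.1 hν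
    refine ⟨a.cof.ord.toZFSet, toZFSet_mem_toZFSet_iff.2 (Cardinal.ord_lt_ord.2 ha),
      ZFSet.isOrdinal_toZFSet _, ZFSet.isOrdinal_toZFSet _, ?_⟩
    rw [rank_toZFSet, rank_toZFSet]
    rfl
  · intro τ hτ
    obtain ⟨τ, hτ', rfl⟩ := mem_toZFSet_iff.1 hτ
    refine ⟨_, rfl, fun F _ hF => ?_⟩
    have h1 := h.cmp τ hτ' (fun i => {ν | ZFSet.pair i.toZFSet ν.toZFSet ∈ F}) (by
      intro i hi
      obtain ⟨x, hx, h2⟩ := hF _ (toZFSet_mem_toZFSet_iff.2 hi)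
      filter_upwards [((mw x).1 hx).2] with ν h3
      exact h2 _ h3)
    refine ⟨_, hos _ h1, fun ν hν i hi => ?_⟩
    obtain ⟨a, -, ha, rfl⟩ := mem_os.1 hν
    obtain ⟨i, hi', rfl⟩ := mem_toZFSet_iff.1 hi
    exact ha i hi'
  · refine ⟨_, rfl, fun G _ hG => ?_⟩
    obtain ⟨x, hx, hxG⟩ := hG
    let g : Ordinal.{u} → Ordinal.{u} := fun ν =>
      if h : ∃ ξ < ν, ZFSet.pair ν.toZFSet ξ.toZFSet ∈ G then h.choose else ν
    have hg : ∀ ν ∈ So x, g ν < ν ∧ ZFSet.pair ν.toZFSet (g ν).toZFSet ∈ G := by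
      intro ν hν
      obtain ⟨ξ, hξ, h1⟩ := hxG ν.toZFSet hν
      obtain ⟨ξ, hξ', rfl⟩ := mem_toZFSet_iff.1 hξ
      have h2 : ∃ ξ < ν, ZFSet.pair ν.toZFSet ξ.toZFSet ∈ G := ⟨ξ, hξ', h1⟩
      simp only [g, dif_pos h2]
      exact h2.choose_spec
    have hxW := ((mw x).1 hx).2
    obtain ⟨η, hη, h1⟩ := h.wn g (by
      filter_upwards [hxW] with ν h2
      exact (hg ν h2).1)
    refine ⟨η.toZFSet, toZFSet_mem_toZFSet_iff.2 hη, _, hos _ (Filter.inter_mem h1 hxW), ?_⟩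
    intro ν hν
    obtain ⟨a, haκ, ⟨ha1, ha2⟩, rfl⟩ := mem_os.1 hν
    obtain ⟨h3, h4⟩ := hg a ha2
    refine ⟨(g a).toZFSet, toZFSet_mem_toZFSet_iff.2 (h3.trans haκ), ?_, h4⟩
    rcases lt_or_eq_of_le (show g a ≤ η from ha1) with h5 | h5
    · exact Or.inl (toZFSet_mem_toZFSet_iff.2 h5)
    · exact Or.inr (congrArg _ h5)

theorem wn_of_wz {D : Cardinal.{u}} (hD : ℵ₀ < D) {κ : Ordinal.{u}} {w : ZFSet.{u}}
    (h : WZ D.ord.toZFSet κ.toZFSet w) : ∃ W, WN D κ W := by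
  classical
  obtain ⟨h1, h2, h3, h4, h5, h6, h7, h8, h9⟩ := h
  have hup : ∀ x ∈ w, ∀ A : Set Ordinal.{u}, (∀ a < κ, a.toZFSet ∈ x → a ∈ A) → os κ A ∈ w := by
    intro x hx A hA
    refine h3 x hx _ os_sub fun z hz => ?_
    obtain ⟨a, ha, rfl⟩ := mem_toZFSet_iff.1 (h1 x hx hz)
    exact ord_mem_os.2 ⟨ha, hA a ha hz⟩
  have hcmp : ∀ τ < D.ord, ∀ X : Ordinal.{u} → Set Ordinal.{u}, (∀ i < τ, os κ (X i) ∈ w) →
      os κ {ν | ∀ i < τ, ν ∈ X i} ∈ w := by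
    intro τ hτ X hX
    obtain ⟨P, rfl, hP⟩ := h8 τ.toZFSet (toZFSet_mem_toZFSet_iff.2 hτ)
    obtain ⟨x, hx, hx2⟩ := hP (ZFSet.sep (fun p => ∃ i ν : Ordinal.{u}, p =
        ZFSet.pair i.toZFSet ν.toZFSet ∧ ν ∈ X i) (ZFSet.prod τ.toZFSet κ.toZFSet))
      (ZFSet.sep_subset) (by
        intro i hi
        obtain ⟨i, hi', rfl⟩ := mem_toZFSet_iff.1 hi
        refine ⟨_, hX i hi', fun ν hν => ?_⟩
        obtain ⟨a, ha, haX, rfl⟩ := mem_os.1 hν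
        rw [ZFSet.mem_sep]
        exact ⟨ZFSet.pair_mem_prod.2 ⟨toZFSet_mem_toZFSet_iff.2 hi',
          toZFSet_mem_toZFSet_iff.2 ha⟩, i, a, rfl, haX⟩)
    refine hup x hx _ fun a _ hax i hi => ?_
    have := hx2 _ hax _ (toZFSet_mem_toZFSet_iff.2 hi)
    rw [ZFSet.mem_sep] at this
    obtain ⟨-, i', ν, he, hν⟩ := this
    obtain ⟨e1, e2⟩ := ZFSet.pair_injective he
    rw [toZFSet_injective e1, toZFSet_injective e2]
    exact hν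
  have h2D : (2 : Ordinal.{u}) < D.ord := by
    have h10 : (2 : Ordinal.{u}) < ω := by exact_mod_cast Ordinal.natCast_lt_omega0 2
    have h11 : ω ≤ D.ord := by
      rw [← Cardinal.ord_aleph0]
      exact Cardinal.ord_le_ord.2 hD.le
    exact h10.trans_le h11
  let F : Filter Ordinal.{u} :=
    { sets := {A | os κ A ∈ w}
      univ_sets := hup _ h2 _ fun a _ _ => mem_univ a
      sets_of_superset := fun {A B} hA hAB => hup _ hA _ fun a _ ha => hAB (ord_mem_os.1 ha).2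
      inter_sets := fun {A B} hA hB => by
        have h10 := hcmp 2 h2D (fun i => if i = 0 then A else B) (by
          intro i _
          by_cases hi : i = 0
          · simp only [hi, if_true]; exact hA
          · simp only [hi, if_false]; exact hB)
        refine hup _ h10 _ fun a _ ha => ?_
        have h11 := (ord_mem_os.1 ha).2
        refine ⟨?_, ?_⟩
        · have := h11 0 (by norm_num)
          simpa using this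
        · have := h11 1 (by norm_num)
          simpa using this }
  have mF : ∀ A, A ∈ F ↔ os κ A ∈ w := fun A => Iff.rfl
  let W : Ultrafilter Ordinal.{u} := Ultrafilter.ofComplNotMemIff F (by
    intro A
    rw [mF, mF]
    constructor
    · intro hA
      rcases h4 (os κ A) os_sub with ⟨h10, -⟩ | ⟨-, y, hy, hy2⟩
      · exact h10
      · exfalso
        apply hA
        refine hup y hy _ fun a ha hay haA => hy2 _ hay (ord_mem_os.2 ⟨ha, haA⟩)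
    · intro hA hAc
      rcases h4 (os κ A) os_sub with ⟨-, h10⟩ | ⟨h10, -⟩
      · obtain ⟨z, hz, hz2⟩ := h10 _ hAc
        obtain ⟨a, -, haA, rfl⟩ := mem_os.1 hz
        exact haA (ord_mem_os.1 hz2).2
      · exact h10 hA)
  have mW : ∀ A, A ∈ W ↔ os κ A ∈ w := fun A => Iff.rfl
  refine ⟨W, ?_, ?_, ?_, ?_, ?_, ?_⟩
  · rw [mW]
    exact hup _ h2 _ fun a ha _ => ha
  · intro ξ hξ
    rw [mW]
    obtain ⟨x, hx, hx2⟩ := h5 _ (toZFSet_mem_toZFSet_iff.2 hξ)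
    exact hup x hx _ fun a _ hax => toZFSet_mem_toZFSet_iff.1 (hx2 _ hax)
  · rw [mW]
    obtain ⟨x, hx, hx2⟩ := h6
    refine hup x hx _ fun a _ hax => ?_
    obtain ⟨⟨b, hb, -⟩, h10⟩ := hx2 _ hax
    obtain ⟨b, hb', rfl⟩ := mem_toZFSet_iff.1 hb
    refine ⟨fun hmin => absurd hb' (hmin.not_lt), fun c hc => ?_⟩
    obtain ⟨b', hb'', h11⟩ := h10 _ (toZFSet_mem_toZFSet_iff.2 hc.lt)
    obtain ⟨b', hb3, rfl⟩ := mem_toZFSet_iff.1 hb''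
    exact hc.2 (toZFSet_mem_toZFSet_iff.1 h11) hb3
  · rw [mW]
    obtain ⟨x, hx, hx2⟩ := h7
    refine hup x hx _ fun a _ hax => ?_
    obtain ⟨μ, hμ, -, -, h10⟩ := hx2 _ hax
    obtain ⟨μ, hμ', rfl⟩ := mem_toZFSet_iff.1 hμ
    rw [rank_toZFSet, rank_toZFSet] at h10
    have h11 : a.cof.ord = μ := h10
    rw [← h11] at hμ'
    exact Cardinal.ord_lt_ord.1 hμ'
  · intro τ hτ X hX
    rw [mW]
    exact hcmp τ hτ X fun i hi => (mW _).1 (hX i hi)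
  · intro g hg
    obtain ⟨P, rfl, hP⟩ := h9
    obtain ⟨η, hη, y, hy, hy2⟩ := hP (ZFSet.sep (fun p => ∃ ν : Ordinal.{u}, p =
        ZFSet.pair ν.toZFSet (g ν).toZFSet) (ZFSet.prod κ.toZFSet κ.toZFSet))
      (ZFSet.sep_subset) (by
        refine ⟨_, (mW _).1 hg, fun ν hν => ?_⟩
        obtain ⟨a, ha, hga, rfl⟩ := mem_os.1 hν
        refine ⟨(g a).toZFSet, toZFSet_mem_toZFSet_iff.2 hga, ?_⟩
        rw [ZFSet.mem_sep]
        exact ⟨ZFSet.pair_mem_prod.2 ⟨toZFSet_mem_toZFSet_iff.2 ha,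
          toZFSet_mem_toZFSet_iff.2 (lt_trans hga ha)⟩, a, rfl⟩)
    obtain ⟨η, hη', rfl⟩ := mem_toZFSet_iff.1 hη
    refine ⟨η, hη', ?_⟩
    rw [mW]
    refine hup y hy _ fun a _ hay => ?_
    obtain ⟨ξ, -, h10, h11⟩ := hy2 _ hay
    rw [ZFSet.mem_sep] at h11
    obtain ⟨-, ν, he⟩ := h11
    obtain ⟨e1, rfl⟩ := ZFSet.pair_injective he
    rw [← toZFSet_injective e1] at h10
    rcases h10 with h12 | h12
    · exact (toZFSet_mem_toZFSet_iff.1 h12).le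
    · exact (toZFSet_injective h12).le

theorem X : T_LW.{u} := by
  have hRC : T_RC.{u} := All.rc
  have hLA : T_LA.{u} := All.la
  refine Loc.congr (P := fun v => (v 0).IsOrdinal ∧ (v 1).IsOrdinal ∧
    ((v 1).IsOrdinal ∧ ∃ D : Cardinal.{u}, (v 1).rank = D.ord ∧ D.IsRegular ∧
      D.IsStrongLimit ∧ ℵ₀ < D) ∧
    ∀ κ ∈ v 0, (∀ ν ∈ v 1, ¬ (ν.IsOrdinal ∧ κ.IsOrdinal ∧ Cf ν.rank κ.rank)) →
      ∃ w, WZ (v 1) κ w) ?_ ?_
  · refine (loc_ord 0).and ((loc_ord 1).and (Loc.and (hRC.ren fun n => if n = 0 then 1 else n)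
      (Loc.allMem 0 (Loc.imp (Loc.allMem 2 (Loc.not (hLA.ren fun n => n)))
        (Loc.ex (loc_WZ 3 1 0) ?_)))))
    rintro η hη v hv x ⟨h1, -⟩
    refine mem_V_of_sub (y := ZFSet.powerset (v 0)) ?_ (hη.powerset (hv 0))
    intro z hz
    rw [ZFSet.mem_powerset]
    exact h1 z hz
  · intro v
    refine and_congr_right fun h0 => and_congr_right fun h1 => ?_
    obtain ⟨β, hβ⟩ := ord_of h0
    obtain ⟨δ, hδ⟩ := ord_of h1
    rw [hβ, hδ]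
    simp only [rank_toZFSet]
    unfold GoodWB
    constructor
    · rintro ⟨D, rfl, hreg, hsl, hunc, h⟩
      refine ⟨⟨ZFSet.isOrdinal_toZFSet _, D, rfl, hreg, hsl, hunc⟩, ?_⟩
      intro κ hκ hcof
      obtain ⟨κ, hκ', rfl⟩ := mem_toZFSet_iff.1 hκ
      obtain ⟨W, hW⟩ := h κ hκ' (by
        by_contra hlt
        rw [not_le] at hlt
        refine hcof _ (toZFSet_mem_toZFSet_iff.2 (Cardinal.ord_lt_ord.2 hlt))
          ⟨ZFSet.isOrdinal_toZFSet _, ZFSet.isOrdinal_toZFSet _, ?_⟩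
        rw [rank_toZFSet, rank_toZFSet]
        rfl)
      exact wz_of_wn hW
    · rintro ⟨⟨-, D, rfl, hreg, hsl, hunc⟩, h⟩
      refine ⟨D, rfl, hreg, hsl, hunc, fun κ hκ hcof => ?_⟩
      obtain ⟨w, hw⟩ := h _ (toZFSet_mem_toZFSet_iff.2 hκ) (by
        rintro ν hν ⟨-, -, hcf⟩
        obtain ⟨ν, hν', rfl⟩ := mem_toZFSet_iff.1 hν
        rw [rank_toZFSet, rank_toZFSet] at hcf
        have h10 : κ.cof.ord = ν := hcf
        rw [← h10] at hν'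
        exact absurd (Cardinal.ord_lt_ord.1 hν') (not_lt.2 hcof))
      exact wn_of_wz hunc hw

end Pool.Agent.H81.HD9.LW
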